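import Pool.Agent.Helper99.DF.St

/-!
# Project DF, module PR3
-/

set_option autoImplicit false

namespace Pool.Agent.Helper16.DF

open Pool.Agent.Helper99.DF

/-- sums of maps are primitive recursive -/
theorem primrec_list_sum_map {α β : Type} [Primcodable α] [Primcodable β] {f : α → List β}
    {g : α → β → ℤ} (hf : Primrec f) (hg : Primrec₂ g) :
    Primrec (fun a => ((f a).map (g a)).sum) := by
  have h : Primrec (fun a => (f a).foldr (fun b s => (fun (a : α) (bs : β × ℤ) =>
      g a bs.1 + bs.2) a (b, s)) ((fun _ => (0 : ℤ)) a)) := by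
    refine Primrec.list_foldr (f := f) (g := fun _ => (0 : ℤ))
      (h := fun a (bs : β × ℤ) => g a bs.1 + bs.2) hf (Primrec.const 0) ?_
    exact Pool.Agent.Helper4.IL.primrec_int_add.comp
      (hg.comp Primrec.fst (Primrec.fst.comp Primrec.snd)) (Primrec.snd.comp Primrec.snd)
  refine h.of_eq fun a => ?_
  simp only
  induction f a with
  | nil => simp
  | cons b l ih => simp [ih]

theorem hPR3 (h1 : StPR2) : StPR3 := by
  have h2 : Primrec₂ (fun (q : (List ℕ × ℕ) × (Pol × List ℤ)) (ce : ℤ × List ℕ) =>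
      (ce.1 : ℤ) * mon q.1.1 q.1.2 ce.2 (sq q.2.2)) := by
    refine Pool.Agent.Helper4.IL.primrec_int_mul.comp (Primrec.fst.comp Primrec.snd) ?_
    have h3 : Primrec (fun r : ((List ℕ × ℕ) × (Pol × List ℤ)) × (ℤ × List ℕ) =>
        ((r.1.1, (r.2.2, r.1.2.2)) : (List ℕ × ℕ) × (List ℕ × List ℤ))) :=
      Primrec.pair (Primrec.fst.comp Primrec.fst) (Primrec.pair (Primrec.snd.comp Primrec.snd)
        (Primrec.snd.comp (Primrec.snd.comp Primrec.fst)))
    exact h1.comp h3
  have h4 := primrec_list_sum_map (f := fun q : (List ℕ × ℕ) × (Pol × List ℤ) => q.2.1)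
    (Primrec.fst.comp Primrec.snd) h2
  refine h4.of_eq fun q => ?_
  simp [PT]

end Pool.Agent.Helper16.DF
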