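import Pool.Agent.Helper99.DF.St

/-!
# Project DF, module VB
-/

set_option autoImplicit false

namespace Pool.Agent.Helper16.DF

open Pool.Agent.Helper99.DF

private theorem vb_step (v : ℕ → ℝ) (hv : ∀ k, 0 < v k ∧ v k ≤ 1) (h0 : v 0 = 1)
    (hc : ∀ k, 1 ≤ k → v (k - 1) * v (k + 1) * (1 - v k) ^ 2 ≤ v k ^ 2) (k0 : ℕ)
    (hmin : ∀ k, v k0 ≤ v k) :
    ∀ i, (∀ j ≤ i, v (k0 + j) < 1 / 2) → v (k0 + i + 1) ≤ 4 ^ (i + 1) * v (k0 + i) := by
  intro i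
  induction i with
  | zero =>
    intro hj
    have h1 : v k0 < 1 / 2 := by simpa using hj 0 le_rfl
    have hk : 1 ≤ k0 := by
      rcases Nat.eq_zero_or_pos k0 with h | h
      · rw [h, h0] at h1
        norm_num at h1
      · exact h
    have h2 := hc k0 hk
    have h3 := hmin (k0 - 1)
    have h4 := (hv k0).1
    have h5 := (hv (k0 + 1)).1
    have h6 : (1 / 4 : ℝ) ≤ (1 - v k0) ^ 2 := by nlinarith
    have h7 : v k0 * v (k0 + 1) * (1 / 4) ≤ v (k0 - 1) * v (k0 + 1) * (1 - v k0) ^ 2 := by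
      have h8 : v k0 * v (k0 + 1) ≤ v (k0 - 1) * v (k0 + 1) :=
        mul_le_mul_of_nonneg_right h3 h5.le
      exact mul_le_mul h8 h6 (by norm_num) (mul_nonneg (hv _).1.le h5.le)
    have h8 : v k0 * (v (k0 + 1) * (1 / 4)) ≤ v k0 * v k0 := by nlinarith
    have h9 : v (k0 + 1) * (1 / 4) ≤ v k0 := le_of_mul_le_mul_left h8 h4
    simp only [add_zero, zero_add, pow_one]
    linarith
  | succ i ih =>
    intro hj
    have h1 : v (k0 + (i + 1)) < 1 / 2 := hj (i + 1) le_rfl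
    have hi := ih (fun j hji => hj j (by omega))
    have h2 := hc (k0 + (i + 1)) (by omega)
    have e1 : k0 + (i + 1) - 1 = k0 + i := by omega
    rw [e1] at h2
    have h4 := (hv (k0 + i)).1
    have h5 := (hv (k0 + (i + 1))).1
    have h5' := (hv (k0 + (i + 1) + 1)).1
    have h6 : (1 / 4 : ℝ) ≤ (1 - v (k0 + (i + 1))) ^ 2 := by nlinarith
    have h7 : v (k0 + i) * v (k0 + (i + 1) + 1) * (1 / 4)
        ≤ v (k0 + i) * v (k0 + (i + 1) + 1) * (1 - v (k0 + (i + 1))) ^ 2 :=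
      mul_le_mul_of_nonneg_left h6 (mul_nonneg h4.le h5'.le)
    have hi' : v (k0 + (i + 1)) ≤ 4 ^ (i + 1) * v (k0 + i) := hi
    have h8 : v (k0 + (i + 1)) ^ 2 ≤ v (k0 + (i + 1)) * (4 ^ (i + 1) * v (k0 + i)) := by
      rw [pow_two]
      exact mul_le_mul_of_nonneg_left hi' h5.le
    have h9 : v (k0 + i) * (v (k0 + (i + 1) + 1) * (1 / 4))
        ≤ v (k0 + i) * (4 ^ (i + 1) * v (k0 + (i + 1))) := by
      calc _ = v (k0 + i) * v (k0 + (i + 1) + 1) * (1 / 4) := by ring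
        _ ≤ _ := h7
        _ ≤ _ := h2
        _ ≤ _ := h8
        _ = _ := by ring
    have h10 := le_of_mul_le_mul_left h9 h4
    have h11 : (4 : ℝ) ^ (i + 1 + 1) = 4 * 4 ^ (i + 1) := by ring
    rw [h11]
    linarith

private theorem vb_iter (v : ℕ → ℝ) (hv : ∀ k, 0 < v k ∧ v k ≤ 1) (h0 : v 0 = 1)
    (hc : ∀ k, 1 ≤ k → v (k - 1) * v (k + 1) * (1 - v k) ^ 2 ≤ v k ^ 2) (k0 : ℕ)
    (hmin : ∀ k, v k0 ≤ v k) :
    ∀ i, (∀ j < i, v (k0 + j) < 1 / 2) → v (k0 + i) ≤ 4 ^ (i ^ 2) * v k0 := by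
  intro i
  induction i with
  | zero =>
    intro _
    simp
  | succ i ih =>
    intro hj
    have h1 := vb_step v hv h0 hc k0 hmin i (fun j hji => hj j (by omega))
    have h2 := ih (fun j hji => hj j (by omega))
    have h3 : (4 : ℝ) ^ (i + 1) * 4 ^ (i ^ 2) ≤ 4 ^ ((i + 1) ^ 2) := by
      rw [← pow_add]
      exact pow_le_pow_right₀ (by norm_num) (by nlinarith)
    calc v (k0 + (i + 1)) ≤ 4 ^ (i + 1) * v (k0 + i) := h1
      _ ≤ 4 ^ (i + 1) * (4 ^ (i ^ 2) * v k0) := by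
          exact mul_le_mul_of_nonneg_left h2 (by positivity)
      _ = 4 ^ (i + 1) * 4 ^ (i ^ 2) * v k0 := by ring
      _ ≤ _ := mul_le_mul_of_nonneg_right h3 (hv k0).1.le

theorem hVB : StVB := by
  intro n v hv h0 hn hc
  obtain ⟨k0, -, hk0⟩ := Finset.exists_min_image (Finset.range (n + 2)) v ⟨0, by simp⟩
  have hmin : ∀ k, v k0 ≤ v k := by
    intro k
    by_cases hk : k < n + 2
    · exact hk0 k (Finset.mem_range.2 hk)
    · rw [hn k (by omega)]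
      exact (hv k0).2
  have hex : ∃ i, 1 / 2 ≤ v (k0 + i) := ⟨n + 1, by rw [hn _ (by omega)]; norm_num⟩
  classical
  set i1 := Nat.find hex with hi1
  have h1 : 1 / 2 ≤ v (k0 + i1) := Nat.find_spec hex
  have h2 : i1 ≤ n + 1 := Nat.find_min' hex (by rw [hn _ (by omega)]; norm_num)
  have h3 := vb_iter v hv h0 hc k0 hmin i1 (fun j hj => not_le.1 (Nat.find_min hex hj))
  have h4 : (4 : ℝ) ^ (i1 ^ 2) ≤ 4 ^ ((n + 2) ^ 2) :=
    pow_le_pow_right₀ (by norm_num) (Nat.pow_le_pow_left (by omega) 2)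
  have h5 : 1 / 2 ≤ 4 ^ ((n + 2) ^ 2) * v k0 :=
    le_trans h1 (le_trans h3 (mul_le_mul_of_nonneg_right h4 (hv k0).1.le))
  intro k
  refine le_trans ?_ (hmin k)
  have h6 : ((1 : ℝ) / 4) ^ ((n + 2) ^ 2) * 4 ^ ((n + 2) ^ 2) = 1 := by
    rw [← mul_pow]; norm_num
  have h7 : (0 : ℝ) < (1 / 4) ^ ((n + 2) ^ 2) := by positivity
  calc (1 / 2 : ℝ) * (1 / 4) ^ ((n + 2) ^ 2)
      ≤ (4 ^ ((n + 2) ^ 2) * v k0) * (1 / 4) ^ ((n + 2) ^ 2) :=
        mul_le_mul_of_nonneg_right h5 h7.le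
    _ = ((1 / 4) ^ ((n + 2) ^ 2) * 4 ^ ((n + 2) ^ 2)) * v k0 := by ring
    _ = v k0 := by rw [h6, one_mul]

end Pool.Agent.Helper16.DF
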